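import Pool.Agent.W425.GN.Defs

set_option autoImplicit false

/-! Project GN (helper425), Part S1: the operators which map `f ^ s` into `D f ^ (s + 1)`. -/

namespace Pool.Agent.W790.GN

open MvPolynomial Pool.Agent.W425.GN

section
variable {n : ℕ} {R : Type} [CommRing R]

theorem act_add (P Q : MvPolynomial (Sy n) R) (s : ℕ) (φ : MvPolynomial (Fin n) R) :
    act (P + Q) s φ = act P s φ + act Q s φ := map_add _ _ _

theorem act_sub (P Q : MvPolynomial (Sy n) R) (s : ℕ) (φ : MvPolynomial (Fin n) R) :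
    act (P - Q) s φ = act P s φ - act Q s φ := map_sub _ _ _

theorem act_smul (c : R) (P : MvPolynomial (Sy n) R) (s : ℕ) (φ : MvPolynomial (Fin n) R) :
    act (c • P) s φ = c • act P s φ := map_smul _ _ _

theorem act_zero (s : ℕ) (φ : MvPolynomial (Fin n) R) :
    act (0 : MvPolynomial (Sy n) R) s φ = 0 := map_zero _

/-- the operators which map `f ^ s` into `D f ^ (s + 1)` -/
noncomputable def MM (f : MvPolynomial (Fin n) R) : Submodule R (MvPolynomial (Sy n) R) where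
  carrier := {W | ∃ (Q : MvPolynomial (Sy n) R) (s0 : ℕ), ∀ s ≥ s0,
    act W s (f ^ s) = act Q s (f ^ (s + 1))}
  add_mem' := by
    rintro a b ⟨Q, s0, h⟩ ⟨Q', s0', h'⟩
    refine ⟨Q + Q', max s0 s0', fun s hs => ?_⟩
    rw [act_add, act_add, h s (le_trans (le_max_left _ _) hs),
      h' s (le_trans (le_max_right _ _) hs)]
  zero_mem' := ⟨0, 0, fun s _ => by rw [act_zero, act_zero]⟩
  smul_mem' := by
    rintro c a ⟨Q, s0, h⟩
    exact ⟨c • Q, s0, fun s hs => by rw [act_smul, act_smul, h s hs]⟩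

theorem mem_MM {f : MvPolynomial (Fin n) R} {W : MvPolynomial (Sy n) R} :
    W ∈ MM f ↔ ∃ (Q : MvPolynomial (Sy n) R) (s0 : ℕ), ∀ s ≥ s0,
      act W s (f ^ s) = act Q s (f ^ (s + 1)) := Iff.rfl

theorem stab_MM (hA1 : TaskA1) (f : MvPolynomial (Fin n) R) : Stab (MM f) := by
  rintro P ⟨Q, s0, h⟩
  refine ⟨⟨ls Q, s0, fun s hs => ?_⟩, fun i => ⟨⟨lx i Q, s0, fun s hs => ?_⟩,
    ⟨ld i Q, s0, fun s hs => ?_⟩⟩⟩
  · rw [(hA1 P s _).2.1, (hA1 Q s _).2.1, h s hs]
  · rw [(hA1 P s _).2.2.1 i, (hA1 Q s _).2.2.1 i, h s hs]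
  · rw [(hA1 P s _).2.2.2.1 i, (hA1 Q s _).2.2.2.1 i, h s hs]

/-- linear maps preserve the operators with coefficients in the kernel of `e` -/
theorem map_lin {κ : Type} [CommRing κ] (e : R →+* κ)
    (L : MvPolynomial (Sy n) R →ₗ[R] MvPolynomial (Sy n) R) {T : MvPolynomial (Sy n) R}
    (hT : MvPolynomial.map e T = 0) : MvPolynomial.map e (L T) = 0 := by
  have h1 : T = ∑ m ∈ T.support, coeff m T • monomial m (1 : R) := by
    conv_lhs => rw [MvPolynomial.as_sum T]
    refine Finset.sum_congr rfl fun m _ => ?_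
    rw [MvPolynomial.smul_monomial, smul_eq_mul, mul_one]
  rw [h1, map_sum, map_sum]
  refine Finset.sum_eq_zero fun m _ => ?_
  have h2 : e (coeff m T) = 0 := by
    rw [← MvPolynomial.coeff_map, hT, MvPolynomial.coeff_zero]
  rw [map_smul, MvPolynomial.smul_eq_C_mul, map_mul, MvPolynomial.map_C, h2, C_0, zero_mul]

/-- the decomposition of `w` -/
def Dec (B : Set (Sy n →₀ ℕ)) (f : MvPolynomial (Fin n) R) {κ : Type} [CommRing κ] (e : R →+* κ)
    (w : MvPolynomial (Sy n) R) : Prop :=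
  ∃ (Q T : MvPolynomial (Sy n) R) (s0 : ℕ), (∀ m ∈ Q.support, m ∈ B) ∧
    MvPolynomial.map e Q = 0 ∧ MvPolynomial.map e T = 0 ∧
    ∀ s ≥ s0, act w s (f ^ s) = act Q s (f ^ s) + act T s (f ^ (s + 1))

theorem dec_of (B : Set (Sy n →₀ ℕ)) (f : MvPolynomial (Fin n) R) {κ : Type} [CommRing κ]
    (e : R →+* κ)
    (hB : ∀ W : MvPolynomial (Sy n) R, ∃ Q : MvPolynomial (Sy n) R,
      (∀ m ∈ Q.support, m ∈ B) ∧ W - Q ∈ MM f)
    (w : MvPolynomial (Sy n) R) (hw : MvPolynomial.map e w = 0) : Dec B f e w := by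
  classical
  have h1 : w = ∑ m ∈ w.support, coeff m w • monomial m (1 : R) := by
    conv_lhs => rw [MvPolynomial.as_sum w]
    refine Finset.sum_congr rfl fun m _ => ?_
    rw [MvPolynomial.smul_monomial, smul_eq_mul, mul_one]
  rw [h1]
  refine Finset.sum_induction _ (Dec B f e) ?_ ?_ ?_
  · rintro a b ⟨Q, T, s0, h1, h2, h3, h4⟩ ⟨Q', T', s0', h1', h2', h3', h4'⟩
    refine ⟨Q + Q', T + T', max s0 s0', ?_, by rw [map_add, h2, h2', add_zero],
      by rw [map_add, h3, h3', add_zero], fun s hs => ?_⟩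
    · intro m hm
      rcases Finset.mem_union.1 (MvPolynomial.support_add hm) with h | h
      · exact h1 m h
      · exact h1' m h
    · rw [act_add, act_add, act_add, h4 s (le_trans (le_max_left _ _) hs),
        h4' s (le_trans (le_max_right _ _) hs)]
      ring
  · exact ⟨0, 0, 0, by simp, map_zero _, map_zero _, fun s _ => by
      rw [act_zero, act_zero, add_zero]⟩
  · intro m _
    have h2 : e (coeff m w) = 0 := by
      rw [← MvPolynomial.coeff_map, hw, MvPolynomial.coeff_zero]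
    obtain ⟨Q, hQ, T, s0, hT⟩ := hB (monomial m 1)
    have hk : ∀ X : MvPolynomial (Sy n) R, MvPolynomial.map e (coeff m w • X) = 0 := by
      intro X
      rw [MvPolynomial.smul_eq_C_mul, map_mul, MvPolynomial.map_C, h2, C_0, zero_mul]
    refine ⟨coeff m w • Q, coeff m w • T, s0, ?_, hk Q, hk T, fun s hs => ?_⟩
    · intro m' hm'
      exact hQ m' (MvPolynomial.support_smul hm')
    · have h3 := hT s hs
      rw [act_sub, sub_eq_iff_eq_add] at h3
      rw [act_smul, act_smul, act_smul, h3, smul_add, add_comm]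

end

theorem specW (hG1 : TaskG1) (hA1 : TaskA1) (hA2 : TaskA2) (hA3 : TaskA3) : SpecW := by
  classical
  intro n K _ f
  obtain ⟨B, G, hG, hB0, hB⟩ := hG1 (MM f) (stab_MM hA1 f)
  have hQ : ∀ P : MvPolynomial (Sy n) K, ∃ Q : MvPolynomial (Sy n) K, P ∈ G →
      ∃ s0 : ℕ, ∀ s ≥ s0, act P s (f ^ s) = act Q s (f ^ (s + 1)) := by
    intro P
    by_cases hP : P ∈ G
    · obtain ⟨Q, s0, h⟩ := hG P hP
      exact ⟨Q, fun _ => ⟨s0, h⟩⟩
    · exact ⟨0, fun h => absurd h hP⟩
  choose Qf hQf using hQ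
  refine ⟨(G.biUnion fun P => P.coeffs) ∪ (G.biUnion fun P => (Qf P).coeffs), ?_⟩
  intro R _ ι hι hZ fR hfR κ _ e d W w hw hWw
  have hmi : Function.Injective (MvPolynomial.map ι : MvPolynomial (Sy n) R → MvPolynomial (Sy n) K) :=
    MvPolynomial.map_injective ι hι
  have hmi' : Function.Injective (MvPolynomial.map ι : MvPolynomial (Fin n) R → MvPolynomial (Fin n) K) :=
    MvPolynomial.map_injective ι hι
  have hact : ∀ (P : MvPolynomial (Sy n) R) (s k : ℕ),
      MvPolynomial.map ι (act P s (fR ^ k)) = act (MvPolynomial.map ι P) s (f ^ k) := by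
    intro P s k
    rw [(hA3 (n := n) (R := R)).2.2.1 ι P s (fR ^ k), map_pow, hfR]
  have hlift : ∀ P : MvPolynomial (Sy n) K, (∀ z ∈ P.coeffs, ∃ y, ι y = z) →
      ∃ P' : MvPolynomial (Sy n) R, MvPolynomial.map ι P' = P := by
    intro P hP
    have : P ∈ Set.range (MvPolynomial.map ι : MvPolynomial (Sy n) R → MvPolynomial (Sy n) K) := by
      rw [MvPolynomial.mem_range_map_iff_coeffs_subset]
      intro z hz
      exact hP z hz
    exact this
  have hGl : ∀ P ∈ G, ∃ P', MvPolynomial.map ι P' = P := fun P hP =>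
    hlift P fun z hz => hZ z (Finset.mem_union_left _ (Finset.mem_biUnion.2 ⟨P, hP, hz⟩))
  have hQl : ∀ P ∈ G, ∃ Q', MvPolynomial.map ι Q' = Qf P := fun P hP =>
    hlift (Qf P) fun z hz => hZ z (Finset.mem_union_right _ (Finset.mem_biUnion.2 ⟨P, hP, hz⟩))
  have hBR : ∀ W : MvPolynomial (Sy n) R, ∃ Q : MvPolynomial (Sy n) R,
      (∀ m ∈ Q.support, m ∈ B) ∧ W - Q ∈ MM fR := by
    refine hB ι hι hGl (MM fR) (stab_MM hA1 fR) ?_
    intro P' hP'
    obtain ⟨Q', hQ'⟩ := hQl _ hP'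
    obtain ⟨s0, hs0⟩ := hQf _ hP'
    refine ⟨Q', s0, fun s hs => hmi' ?_⟩
    rw [hact, hact, hQ']
    exact hs0 s hs
  -- no relations on `B`
  have hzero : ∀ Q T : MvPolynomial (Sy n) R, (∀ m ∈ Q.support, m ∈ B) →
      (∃ s0, ∀ s ≥ s0, act Q s (fR ^ s) = act T s (fR ^ (s + 1))) → Q = 0 := by
    rintro Q T hQB ⟨s0, h⟩
    apply hmi
    rw [map_zero]
    refine hB0 _ ⟨MvPolynomial.map ι T, s0, fun s hs => ?_⟩ ?_
    · rw [← hact, ← hact, h s hs]
    · intro m hm
      exact hQB m (MvPolynomial.support_map_subset _ _ hm)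
  -- the induction
  obtain ⟨L1, hL1⟩ := (hA3 (n := n) (R := R)).1
  obtain ⟨L3, hL3⟩ := (hA3 (n := n) (R := R)).2.1
  have hL1i : ∀ (k : ℕ) (P : MvPolynomial (Sy n) R) (s : ℕ) (φ : MvPolynomial (Fin n) R),
      act ((L1 ^ k) P) s φ = act P (s + k) φ := by
    intro k
    induction k with
    | zero => intro P s φ; simp
    | succ k ih =>
      intro P s φ
      rw [pow_succ', Module.End.mul_apply, hL1, ih]
      congr 1
      omega
  have key : ∀ (d : ℕ) (W w : MvPolynomial (Sy n) R), MvPolynomial.map e w = 0 →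
      (∃ s0, ∀ s ≥ s0, act W (s + d) (fR ^ (s + d)) = act w s (fR ^ s)) →
      ∃ T : MvPolynomial (Sy n) R, MvPolynomial.map e T = 0 ∧
        ∃ s0, ∀ s ≥ s0, act W s (fR ^ s) = act T s (fR ^ s) := by
    intro d
    induction d with
    | zero =>
      rintro W w hw ⟨s0, h⟩
      exact ⟨w, hw, s0, fun s hs => h s hs⟩
    | succ d ih =>
      rintro W w hw ⟨s0, h⟩
      obtain ⟨Q, T, s1, hQB, hQe, hTe, hdec⟩ := dec_of B fR e hBR w hw
      obtain ⟨L2, hL2⟩ := hA2 (fR ^ d)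
      have hLW : ∀ s, act W (s + (d + 1)) (fR ^ (s + (d + 1))) =
          act (L2 ((L1 ^ (d + 1)) W)) s (fR ^ (s + 1)) := by
        intro s
        rw [hL2, hL1i, ← pow_add]
        congr 2
        omega
      have hQ0 : Q = 0 := by
        refine hzero Q (L2 ((L1 ^ (d + 1)) W) - T) hQB ⟨max s0 s1, fun s hs => ?_⟩
        rw [act_sub, ← hLW, h s (le_trans (le_max_left _ _) hs),
          hdec s (le_trans (le_max_right _ _) hs)]
        ring
      subst hQ0
      refine ih W (L3 T) (map_lin e L3 hTe) ⟨max s0 s1 + 1, fun s hs => ?_⟩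
      obtain ⟨s', rfl⟩ : ∃ s', s = s' + 1 := ⟨s - 1, by omega⟩
      have hs' : max s0 s1 ≤ s' := by omega
      have e1 : s' + 1 + d = s' + (d + 1) := by omega
      rw [e1, h s' (le_trans (le_max_left _ _) hs'), hdec s' (le_trans (le_max_right _ _) hs'),
        act_zero, zero_add, hL3]
  exact key d W w hw hWw

theorem taskS1 : TaskS1 := fun hG1 hA1 hA2 hA3 => specW hG1 hA1 hA2 hA3

end Pool.Agent.W790.GN
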